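import Pool.Agent.W475.BU.Stm
import Pool.Agent.H388LH.ZG

set_option autoImplicit false
set_option linter.all false

namespace Pool.Agent.W918.BU

open Complex MeasureTheory Filter Topology
open Pool.Agent.W475.BH (Ht XK HH be Vh nz PP)
open Pool.Agent.H24R2.JP (XX)
open Pool.Agent.H24R2.DZ (mT bb)
open Pool.Agent.W475.BU

theorem sum_inv_sqrt (N : ℕ) : ∑ n ∈ Finset.Icc 1 N, (n : ℝ) ^ (-(1 / 2) : ℝ) ≤ 2 * Real.sqrt N := by
  induction N with
  | zero => simp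
  | succ N ih =>
    rw [Finset.sum_Icc_succ_top (by omega)]
    have h1 : ((N + 1 : ℕ) : ℝ) ^ (-(1 / 2) : ℝ) = 1 / Real.sqrt ((N + 1 : ℕ) : ℝ) := by
      rw [Real.rpow_neg (by positivity), ← Real.sqrt_eq_rpow, one_div]
    rw [h1]
    have hp : 0 < Real.sqrt ((N + 1 : ℕ) : ℝ) := Real.sqrt_pos.2 (by positivity)
    have hq : 0 ≤ Real.sqrt (N : ℝ) := Real.sqrt_nonneg _
    have e1 : Real.sqrt ((N + 1 : ℕ) : ℝ) ^ 2 = N + 1 := by
      rw [Real.sq_sqrt (by positivity)]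
      push_cast
      ring
    have e2 : Real.sqrt (N : ℝ) ^ 2 = N := Real.sq_sqrt (by positivity)
    have h2 : 1 / Real.sqrt ((N + 1 : ℕ) : ℝ) ≤ 2 * Real.sqrt ((N + 1 : ℕ) : ℝ) - 2 * Real.sqrt (N : ℝ) := by
      rw [div_le_iff₀ hp]
      nlinarith [sq_nonneg (Real.sqrt ((N + 1 : ℕ) : ℝ) - Real.sqrt (N : ℝ))]
    linarith

theorem fract_int_bound2 (N : ℕ) (hN : 1 ≤ N) {s : ℂ} (hs : s.re = 1 / 2) :
    ‖∫ u in Set.Ioi (N : ℝ), ((Int.fract u : ℝ) : ℂ) * (u : ℂ) ^ (-s - 1)‖ ≤ 2 / Real.sqrt N := by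
  have hN0 : (0 : ℝ) < N := by exact_mod_cast hN
  have h1 : ∫ u in Set.Ioi (N:ℝ), (u : ℝ) ^ (-(1/2) - 1 : ℝ) = 2 / Real.sqrt N := by
    rw [integral_Ioi_rpow_of_lt (by norm_num) hN0]
    have h2 : (-(1/2) - 1 + 1 : ℝ) = -(1/2) := by norm_num
    rw [h2, Real.rpow_neg hN0.le, ← Real.sqrt_eq_rpow]
    have : Real.sqrt (N : ℝ) ≠ 0 := (Real.sqrt_pos.2 hN0).ne'
    field_simp
  rw [← h1]
  apply norm_integral_le_of_norm_le
  · exact integrableOn_Ioi_rpow_of_lt (by norm_num) hN0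
  · rw [ae_restrict_iff' measurableSet_Ioi]
    refine Filter.Eventually.of_forall (fun u hu => ?_)
    have hu0 : (0:ℝ) < u := lt_trans hN0 hu
    rw [norm_mul, Complex.norm_real, Real.norm_eq_abs, Int.abs_fract,
      Complex.norm_cpow_eq_rpow_re_of_pos hu0]
    have h3 : (-s - 1).re = -(1/2) - 1 := by simp [hs]
    rw [h3]
    calc Int.fract u * u ^ (-(1/2) - 1 : ℝ) ≤ 1 * u ^ (-(1/2) - 1 : ℝ) := by
          apply mul_le_mul_of_nonneg_right (Int.fract_lt_one u).le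
          positivity
      _ = u ^ (-(1/2) - 1 : ℝ) := one_mul _

theorem zeta_half (τ : ℝ) (hτ : 1 ≤ τ) : ‖riemannZeta (1 / 2 + I * τ)‖ ≤ 8 * Real.sqrt τ := by
  set s : ℂ := 1 / 2 + I * τ with hs
  have hre : s.re = 1 / 2 := by simp [hs]
  have him : s.im = τ := by simp [hs]
  have hs1 : s ≠ 1 := by
    intro h
    rw [h] at hre
    norm_num at hre
  set N : ℕ := ⌈τ⌉₊ with hN
  have hN1 : 1 ≤ N := Nat.one_le_ceil_iff.2 (by linarith)
  have hNτ : τ ≤ N := Nat.le_ceil τ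
  have hNτ2 : (N : ℝ) ≤ 2 * τ := by
    have := Nat.ceil_lt_add_one (show 0 ≤ τ by linarith)
    rw [← hN] at this
    linarith
  have hN0 : (0 : ℝ) < N := by exact_mod_cast hN1
  rw [ZU.zeta_formula N hN1 s (by rw [hre]; norm_num) hs1]
  have hsq : Real.sqrt (N : ℝ) ≤ 3 / 2 * Real.sqrt τ := by
    calc Real.sqrt (N : ℝ) ≤ Real.sqrt (2 * τ) := Real.sqrt_le_sqrt hNτ2
      _ = Real.sqrt 2 * Real.sqrt τ := Real.sqrt_mul (by norm_num) _
      _ ≤ 3 / 2 * Real.sqrt τ := by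
        apply mul_le_mul_of_nonneg_right _ (Real.sqrt_nonneg _)
        rw [Real.sqrt_le_left (by norm_num)]
        norm_num
  have hsτ : 1 ≤ Real.sqrt τ := Real.one_le_sqrt.2 hτ
  have b1 : ‖ZU.DN N s‖ ≤ 2 * Real.sqrt N := by
    unfold ZU.DN
    refine (norm_sum_le _ _).trans ?_
    refine le_trans (Finset.sum_le_sum fun n hn => ?_) (sum_inv_sqrt N)
    rw [Finset.mem_Icc] at hn
    rw [Complex.norm_natCast_cpow_of_pos (by omega)]
    simp [hre]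
  have b2 : ‖(N : ℂ) ^ (1 - s) / (s - 1)‖ ≤ Real.sqrt N := by
    rw [norm_div, Complex.norm_natCast_cpow_of_pos (by omega)]
    have h3 : (1 - s).re = 1 / 2 := by simp [hre]; norm_num
    rw [h3, ← Real.sqrt_eq_rpow]
    have h4 : 1 ≤ ‖s - 1‖ := by
      have := Complex.im_le_norm (s - 1)
      simp at this
      linarith
    exact div_le_self (Real.sqrt_nonneg _) h4
  have b3 : ‖s * ∫ u in Set.Ioi (N : ℝ), ((Int.fract u : ℝ) : ℂ) * (u : ℂ) ^ (-s - 1)‖ ≤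
      3 * Real.sqrt τ := by
    rw [norm_mul]
    have h5 : ‖s‖ ≤ 3 / 2 * τ := by
      have := Complex.norm_le_abs_re_add_abs_im s
      rw [hre, him, abs_of_pos (by norm_num : (0:ℝ) < 1/2), abs_of_nonneg (by linarith)] at this
      linarith
    have h6 := fract_int_bound2 N hN1 hre
    have h7 : 2 / Real.sqrt N ≤ 2 / Real.sqrt τ :=
      div_le_div_of_nonneg_left (by norm_num) (by linarith) (Real.sqrt_le_sqrt hNτ)
    calc _ ≤ (3 / 2 * τ) * (2 / Real.sqrt τ) :=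
          mul_le_mul h5 (h6.trans h7) (norm_nonneg _) (by linarith)
      _ = 3 * Real.sqrt τ := by
          have h8 : Real.sqrt τ * Real.sqrt τ = τ := Real.mul_self_sqrt (by linarith)
          have h9 : Real.sqrt τ ≠ 0 := by linarith
          field_simp
          nlinarith
  calc _ ≤ ‖ZU.DN N s + (N : ℂ) ^ (1 - s) / (s - 1)‖ + ‖s * ∫ u in Set.Ioi (N : ℝ), ((Int.fract u : ℝ) : ℂ) * (u : ℂ) ^ (-s - 1)‖ := norm_sub_le _ _
    _ ≤ (2 * Real.sqrt N + Real.sqrt N) + 3 * Real.sqrt τ := add_le_add ((norm_add_le _ _).trans (add_le_add b1 b2)) b3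
    _ ≤ 8 * Real.sqrt τ := by linarith

theorem zeta_crude (τ : ℝ) : ‖riemannZeta (1 / 2 + I * τ)‖ ≤ 9 * (1 + |τ|) := by
  have h := Pool.Agent.H388LH.zeta_growth' (s := 1 / 2 + I * τ) (by simp; norm_num) (by simp; norm_num)
  simpa using h

theorem mT_bound (θ T τ : ℝ) (hθ : 0 < θ) (hθ2 : θ ≤ 1 / 200) (hT : 1 ≤ T) :
    ‖mT θ T (1 / 2 + I * τ)‖ ≤ 2 * T ^ (1 / 200 : ℝ) := by
  unfold mT Pool.Agent.H24R2.DZ.MM
  refine (norm_sum_le _ _).trans ?_
  have h1 : ∀ h ∈ Finset.Icc 1 (Pool.Agent.H24R2.DZ.yy θ T),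
      ‖bb θ (Real.log T) 0 h * (h : ℂ) ^ (-(1 / 2 + I * (τ : ℂ)))‖ ≤ 1 := by
    intro h hh
    rw [Finset.mem_Icc] at hh
    rw [norm_mul, Complex.norm_natCast_cpow_of_pos (by omega)]
    have e1 : (-(1 / 2 + I * (τ : ℂ))).re = -(1 / 2) := by simp
    rw [e1]
    have e2 : (h : ℝ) ^ (-(1 / 2) : ℝ) ≤ 1 :=
      Real.rpow_le_one_of_one_le_of_nonpos (by exact_mod_cast hh.1) (by norm_num)
    have e3 : ‖bb θ (Real.log T) 0 h‖ ≤ 1 := by
      unfold bb Pool.Agent.H24R2.DZ.mo Pool.Agent.H24R2.DZ.ph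
      rw [neg_zero, Complex.cpow_zero, mul_one, Complex.norm_real, norm_mul]
      have f1 : ‖((ArithmeticFunction.moebius h : ℤ) : ℝ)‖ ≤ 1 := by
        rw [Real.norm_eq_abs]
        exact_mod_cast ArithmeticFunction.abs_moebius_le_one
      have f2 : ‖Real.smoothTransition (2 - 2 * (Real.log h / (θ * Real.log T)))‖ ≤ 1 := by
        rw [Real.norm_of_nonneg (Real.smoothTransition.nonneg _)]
        exact Real.smoothTransition.le_one _
      exact mul_le_one₀ f1 (norm_nonneg _) f2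
    exact mul_le_one₀ e3 (by positivity) e2
  refine (Finset.sum_le_sum h1).trans ?_
  rw [Finset.sum_const, Nat.card_Icc, nsmul_eq_mul, mul_one, Nat.add_sub_cancel]
  unfold Pool.Agent.H24R2.DZ.yy
  have h2 : (⌈T ^ θ⌉₊ : ℝ) < T ^ θ + 1 := Nat.ceil_lt_add_one (by positivity)
  have h3 : T ^ θ ≤ T ^ (1 / 200 : ℝ) := Real.rpow_le_rpow_of_exponent_le hT hθ2
  have h4 : 1 ≤ T ^ (1 / 200 : ℝ) := Real.one_le_rpow hT (by norm_num)
  linarith

theorem PB_bound (a b T τ : ℝ) (hb : b < 1 / 2) (hT : 1 ≤ T) :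
    ‖PB a b T (I * τ)‖ ≤ 2 * T ^ (1 / 4 : ℝ) := by
  unfold PB
  refine (norm_sum_le _ _).trans ?_
  have h1 : ∑ p ∈ PP a b T, ‖(p : ℂ) ^ (-(1 / 2 : ℂ) + I * (τ : ℂ))‖ =
      ∑ p ∈ PP a b T, (p : ℝ) ^ (-(1 / 2) : ℝ) := by
    apply Finset.sum_congr rfl
    intro p hp
    have hpp : p.Prime := by
      unfold PP at hp
      exact (Finset.mem_filter.1 hp).2.1
    rw [Complex.norm_natCast_cpow_of_pos hpp.pos]
    congr 1
    simp
  rw [h1]
  have hsub : PP a b T ⊆ Finset.Icc 1 ⌊T ^ b⌋₊ := by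
    intro p hp
    unfold PP at hp
    rw [Finset.mem_filter, Finset.mem_range] at hp
    rw [Finset.mem_Icc]
    exact ⟨hp.2.1.one_lt.le, by omega⟩
  refine (Finset.sum_le_sum_of_subset_of_nonneg hsub (fun _ _ _ => by positivity)).trans ?_
  refine (sum_inv_sqrt _).trans ?_
  have h2 : (⌊T ^ b⌋₊ : ℝ) ≤ T ^ (1 / 2 : ℝ) :=
    (Nat.floor_le (by positivity)).trans (Real.rpow_le_rpow_of_exponent_le hT hb.le)
  have h3 : Real.sqrt (⌊T ^ b⌋₊ : ℝ) ≤ T ^ (1 / 4 : ℝ) := by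
    refine (Real.sqrt_le_sqrt h2).trans ?_
    rw [Real.sqrt_eq_rpow, ← Real.rpow_mul (by linarith)]
    norm_num
  linarith

end Pool.Agent.W918.BU
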